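import Pool.Agent.Helper22.TW.Stmts
import Pool.Agent.Helper11.BSC.EMB

/-!
# Module EMBU (MP_8312c9_nt): an embedding which makes a given element a unit
-/

set_option autoImplicit false

namespace Pool.Agent.Helper22.TW

open Pool.Agent.Helper14.BSC Polynomial Cardinal

/-- the embedding of `emb_gen`, with its values on the transcendence basis -/
theorem embu_gen (Q C : Type) [Field Q] [Field C] [Algebra Q C] [CharZero Q] [IsAlgClosed C]
    (k : Type) [Field k] [CharZero k] (S : Finset k)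
    (hS : IntermediateField.adjoin ℚ (S : Set k) = ⊤) (B : Type) (b : B → k)
    (hB : IsTranscendenceBasis ℚ b) (x : B → Q) (hx : AlgebraicIndependent ℚ x) :
    ∃ (σ : k →+* C) (E : IntermediateField Q C), FiniteDimensional Q E ∧ (∀ x, σ x ∈ E) ∧
      ∀ i, σ (b i) = algebraMap Q C (x i) := by
  have halg : Algebra.IsAlgebraic (Algebra.adjoin ℚ (Set.range b)) k := hB.isAlgebraic
  let g : Algebra.adjoin ℚ (Set.range b) →+* Q :=
    ((MvPolynomial.aeval x : MvPolynomial B ℚ →ₐ[ℚ] Q) : MvPolynomial B ℚ →+* Q).comp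
      (hB.1.aevalEquiv.symm.toRingEquiv : Algebra.adjoin ℚ (Set.range b) ≃+* MvPolynomial B ℚ).toRingHom
  have hg : Function.Injective g := by
    intro u v huv
    exact hB.1.aevalEquiv.symm.injective (hx huv)
  let i1 : Algebra (Algebra.adjoin ℚ (Set.range b)) Q := g.toAlgebra
  let i2 : Algebra (Algebra.adjoin ℚ (Set.range b)) C := ((algebraMap Q C).comp g).toAlgebra
  have htow : IsScalarTower (Algebra.adjoin ℚ (Set.range b)) Q C :=
    IsScalarTower.of_algebraMap_eq (fun _ => rfl)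
  have hinj : Function.Injective (algebraMap (Algebra.adjoin ℚ (Set.range b)) C) :=
    (algebraMap Q C).injective.comp hg
  have hf : FaithfulSMul (Algebra.adjoin ℚ (Set.range b)) C :=
    (faithfulSMul_iff_algebraMap_injective _ _).2 hinj
  have σ : k →ₐ[Algebra.adjoin ℚ (Set.range b)] C := IsAlgClosed.lift
  have hfin : ∀ s ∈ S, IsIntegral Q (σ s) := by
    intro s _
    have h1 : IsAlgebraic (Algebra.adjoin ℚ (Set.range b)) (σ s) :=
      (Algebra.IsAlgebraic.isAlgebraic s).algHom σ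
    have h2 : IsAlgebraic Q (σ s) := IsAlgebraic.extendScalars hg h1
    exact h2.isIntegral
  refine ⟨(σ : k →+* C), IntermediateField.adjoin Q (σ '' (S : Set k)), ?_, ?_, ?_⟩
  · have : Finite (σ '' (S : Set k)) := (S.finite_toSet.image σ).to_subtype
    apply IntermediateField.finiteDimensional_adjoin
    rintro _ ⟨s, hs, rfl⟩
    exact hfin s hs
  · intro z
    have h1 : z ∈ IntermediateField.adjoin ℚ (S : Set k) := by
      rw [hS]; trivial
    induction h1 using IntermediateField.adjoin_induction with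
    | mem s hs => exact IntermediateField.subset_adjoin _ _ ⟨s, hs, rfl⟩
    | algebraMap r =>
      have : (σ : k →+* C) (algebraMap ℚ k r) = algebraMap Q C (r : Q) := by
        simp
      rw [this]
      exact IntermediateField.algebraMap_mem _ _
    | add u v _ _ hu hv => rw [map_add]; exact add_mem hu hv
    | inv u _ hu => rw [map_inv₀]; exact inv_mem hu
    | mul u v _ _ hu hv => rw [map_mul]; exact mul_mem hu hv
  · intro i
    have hmem : b i ∈ Algebra.adjoin ℚ (Set.range b) := Algebra.subset_adjoin ⟨i, rfl⟩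
    have h1 : σ (b i) = algebraMap (Algebra.adjoin ℚ (Set.range b)) C ⟨b i, hmem⟩ := by
      have h2 := σ.commutes ⟨b i, hmem⟩
      exact h2
    have h3 : g ⟨b i, hmem⟩ = x i := by
      have h4 : hB.1.aevalEquiv.symm ⟨b i, hmem⟩ = MvPolynomial.X i := by
        rw [AlgEquiv.symm_apply_eq]
        apply Subtype.ext
        rw [AlgebraicIndependent.aevalEquiv_apply_coe, MvPolynomial.aeval_X]
      change MvPolynomial.aeval x (hB.1.aevalEquiv.symm ⟨b i, hmem⟩) = x i
      rw [h4, MvPolynomial.aeval_X]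
    change σ (b i) = _
    rw [h1]
    change algebraMap Q C (g ⟨b i, hmem⟩) = _
    rw [h3]

theorem embu_countable (k : Type) [Field k] [CharZero k] (S : Finset k)
    (hS : IntermediateField.adjoin ℚ (S : Set k) = ⊤) : Countable k := by
  have h1 := IntermediateField.cardinalMk_adjoin_le ℚ (S : Set k)
  have h2 : #(⊤ : IntermediateField ℚ k) ≤ ℵ₀ := by
    rw [← hS]
    refine h1.trans (max_le (max_le ?_ ?_) le_rfl)
    · exact Cardinal.mk_le_aleph0
    · exact Cardinal.mk_le_aleph0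
  have h3 : Countable (⊤ : IntermediateField ℚ k) := Cardinal.mk_le_aleph0_iff.1 h2
  exact Countable.of_equiv _ (IntermediateField.topEquiv (F := ℚ) (E := k)).toEquiv

/-- integral elements have norm at most one -/
theorem embu_norm_le (p : ℕ) [Fact p.Prime] {x : ℂ_[p]}
    (hx : (Int.castRingHom ℂ_[p]).IsIntegralElem x) : ‖x‖ ≤ 1 := by
  obtain ⟨f, hf, h0⟩ := hx
  by_contra hn
  push Not at hn
  have hpos : 0 < ‖x‖ := lt_trans one_pos hn
  have hdeg : 0 < f.natDegree := by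
    by_contra hd
    have h1 : f.natDegree = 0 := by omega
    have h2 : f = 1 := by
      have := Polynomial.eq_C_of_natDegree_eq_zero h1
      rw [this]
      have h3 := hf.coeff_natDegree
      rw [h1] at h3
      rw [h3, C_1]
    rw [h2, eval₂_one] at h0
    exact one_ne_zero h0
  rw [eval₂_eq_sum_range, Finset.sum_range_succ, hf.coeff_natDegree, map_one, one_mul] at h0
  have h1 : x ^ f.natDegree
      = -∑ i ∈ Finset.range f.natDegree, (Int.castRingHom ℂ_[p]) (f.coeff i) * x ^ i :=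
    eq_neg_of_add_eq_zero_right h0
  have h2 : ‖∑ i ∈ Finset.range f.natDegree, (Int.castRingHom ℂ_[p]) (f.coeff i) * x ^ i‖
      ≤ ‖x‖ ^ (f.natDegree - 1) := by
    apply IsUltrametricDist.norm_sum_le_of_forall_le_of_nonneg (by positivity)
    intro i hi
    rw [Finset.mem_range] at hi
    rw [norm_mul, norm_pow]
    have h3 : ‖(Int.castRingHom ℂ_[p]) (f.coeff i)‖ ≤ 1 := by
      rw [eq_intCast]
      exact IsUltrametricDist.norm_intCast_le_one _ _
    calc ‖(Int.castRingHom ℂ_[p]) (f.coeff i)‖ * ‖x‖ ^ i ≤ 1 * ‖x‖ ^ i := by gcongr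
      _ = ‖x‖ ^ i := one_mul _
      _ ≤ ‖x‖ ^ (f.natDegree - 1) := pow_le_pow_right₀ hn.le (by omega)
  have h4 : ‖x‖ ^ f.natDegree ≤ ‖x‖ ^ (f.natDegree - 1) := by
    rw [← norm_pow, h1, norm_neg]
    exact h2
  have h5 : ‖x‖ ^ (f.natDegree - 1) < ‖x‖ ^ f.natDegree := pow_lt_pow_right₀ hn (by omega)
  exact absurd h4 (not_le.2 h5)

/-- an integer not divisible by `p` has norm one -/
theorem embu_int (p : ℕ) [hp : Fact p.Prime] {n : ℤ} (hn : ¬ (p : ℤ) ∣ n) :
    ‖((n : ℤ) : ℂ_[p])‖ = 1 := by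
  have h1 : ((n : ℤ) : ℂ_[p]) = algebraMap ℚ_[p] ℂ_[p] ((n : ℤ) : ℚ_[p]) := by
    rw [map_intCast]
  rw [h1, norm_algebraMap']
  refine le_antisymm (Padic.norm_int_le_one n) (not_lt.1 fun h => hn ?_)
  exact Padic.norm_intCast_lt_one_iff.1 h

theorem embu_le_one {F : Type} [Field F] [CharZero F] {c : F} {N : ℤ}
    (h : IsIntegral ℤ ((N : F) * c)) (p : ℕ) [Fact p.Prime] (hN : ¬ (p : ℤ) ∣ N)
    (σ : F →+* ℂ_[p]) : ‖σ c‖ ≤ 1 := by
  have h1 : (Int.castRingHom ℂ_[p]).IsIntegralElem (σ ((N : F) * c)) := by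
    obtain ⟨f, hf, h0⟩ := h
    refine ⟨f, hf, ?_⟩
    have h2 := congrArg σ h0
    rw [map_zero, Polynomial.hom_eval₂] at h2
    have h3 : σ.comp (algebraMap ℤ F) = Int.castRingHom ℂ_[p] := RingHom.ext_int _ _
    rw [h3] at h2
    exact h2
  have h2 := embu_norm_le p h1
  rw [map_mul, map_intCast, norm_mul, embu_int p hN, one_mul] at h2
  exact h2

theorem embu_prime (N : ℤ) (hN : N ≠ 0) : ∃ p : ℕ, p.Prime ∧ ¬ (p : ℤ) ∣ N := by
  obtain ⟨p, hp1, hp2⟩ := Nat.exists_infinite_primes (N.natAbs + 1)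
  refine ⟨p, hp2, fun h => ?_⟩
  have h1 : p ∣ N.natAbs := Int.natCast_dvd.1 h
  have h2 := Nat.le_of_dvd (Int.natAbs_pos.2 hN) h1
  omega

theorem embu_trans (r : ℚ) (hr : r ≠ 0) : Transcendental ℚ (C r * X : ℚ[X]) := by
  intro h
  apply Polynomial.transcendental_X ℚ
  have h1 : (X : ℚ[X]) = algebraMap ℚ ℚ[X] r⁻¹ * (C r * X) := by
    rw [Polynomial.algebraMap_eq, ← mul_assoc, ← C_mul, inv_mul_cancel₀ hr, C_1, one_mul]
  rw [h1]
  exact (isAlgebraic_algebraMap r⁻¹).mul h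

theorem embu_indep (p : ℕ) [Fact p.Prime] (B : Type) [Countable B] :
    ∃ x : B → ℚ_[p], AlgebraicIndependent ℚ x ∧ ∀ i, ‖x i‖ = 1 := by
  obtain ⟨x, hx⟩ := emb_indep p B
  have hp : (p : ℚ) ≠ 0 := Nat.cast_ne_zero.2 (Fact.out : p.Prime).ne_zero
  have h0 : ∀ i, x i ≠ 0 := fun i => hx.ne_zero i
  have h1 : ∀ i, ∃ n : ℤ, ‖x i‖ = (p : ℝ) ^ (-n) := fun i => Padic.norm_eq_zpow_neg_valuation (h0 i) ▸ ⟨_, rfl⟩
  choose n hn using h1
  have h2 := hx.polynomial_aeval_of_transcendental (f := fun i => C ((p : ℚ) ^ (-n i)) * X)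
    (fun i => embu_trans _ (zpow_ne_zero _ hp))
  refine ⟨_, h2, fun i => ?_⟩
  rw [map_mul, aeval_C, aeval_X, norm_mul, hn i, eq_ratCast, Rat.cast_zpow, Rat.cast_natCast,
    norm_zpow, Padic.norm_p]
  have hp' : (p : ℝ) ≠ 0 := Nat.cast_ne_zero.2 (Fact.out : p.Prime).ne_zero
  rw [inv_zpow, ← zpow_neg, neg_neg, ← zpow_add₀ hp', add_neg_cancel, zpow_zero]

theorem st_EMBU : ST_EMBU := by
  intro F _ _ hfg c hc
  obtain ⟨S, hS⟩ := hfg
  have hFc : Countable F := embu_countable F S hS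
  by_cases halg : IsAlgebraic ℚ c
  · -- algebraic case
    have h1 : IsAlgebraic ℤ c := (IsFractionRing.isAlgebraic_iff ℤ ℚ F).2 halg
    have h2 : IsAlgebraic ℤ c⁻¹ := (IsFractionRing.isAlgebraic_iff ℤ ℚ F).2 halg.inv
    obtain ⟨N, hN, hN1⟩ := h1.exists_integral_multiple
    obtain ⟨N', hN', hN1'⟩ := h2.exists_integral_multiple
    obtain ⟨p, hp, hpN⟩ := embu_prime (N * N') (mul_ne_zero hN hN')
    have hfp : Fact p.Prime := ⟨hp⟩
    have hp1 : ¬ (p : ℤ) ∣ N := fun h => hpN (dvd_mul_of_dvd_left h _)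
    have hp2 : ¬ (p : ℤ) ∣ N' := fun h => hpN (dvd_mul_of_dvd_right h _)
    obtain ⟨σ, E, hE, hσ⟩ := Pool.Agent.Helper14.BSC.st_EMB F ⟨S, hS⟩ p
    refine ⟨p, hfp, σ, E, hE, hσ, ?_⟩
    rw [zsmul_eq_mul] at hN1 hN1'
    have h3 := embu_le_one hN1 p hp1 σ
    have h4 := embu_le_one hN1' p hp2 σ
    rw [map_inv₀, norm_inv] at h4
    have h5 : 0 < ‖σ c‖ := norm_pos_iff.2 ((map_ne_zero σ).2 hc)
    have h6 := (inv_le_one₀ h5).1 h4
    exact le_antisymm h3 h6
  · have hfp : Fact (Nat.Prime 2) := ⟨Nat.prime_two⟩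
    have h1 : AlgebraicIndepOn ℚ id ({c} : Set F) := by
      have h2 : AlgebraicIndependent ℚ (fun i : ({c} : Set F) => (i : F)) := by
        rw [algebraicIndependent_singleton_iff ⟨c, rfl⟩]
        exact halg
      exact h2
    obtain ⟨t, ht1, ht2⟩ := exists_isTranscendenceBasis_superset h1
    have htc : Countable t := ht2.1.injective.countable
    obtain ⟨x, hx, hx1⟩ := embu_indep 2 t
    obtain ⟨σ, E, hE, hσ, hσx⟩ := embu_gen ℚ_[2] ℂ_[2] F S hS t (fun i => (i : F)) ht2 x hx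
    refine ⟨2, hfp, σ, E, hE, hσ, ?_⟩
    have h3 := hσx ⟨c, ht1 rfl⟩
    rw [h3, norm_algebraMap', hx1]

end Pool.Agent.Helper22.TW
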